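import Pool.Agent.Lib.BE.SpecG

/-!
PROJECT BE, module FiP: the theorem for pairs (m, h), from the density Hales-Jewett theorem and occupied bins.
-/

set_option autoImplicit false

namespace Pool.Agent.Lib.BE

open Finset
open Pool.Agent.Lib.MP_9f2731_nt.GP Pool.Agent.Lib.MP_9f2731_nt.CG
open Pool.Agent.Lib.MP_9f2731_nt.CG.Mf

/-- pigeonhole: one element of a finite type works for arbitrarily large numbers -/
private theorem FiP_pigeon {S : Type} [Finite S] (P : S → ℕ → Prop)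
    (h : ∀ Y : ℕ, ∃ s : S, ∃ N : ℕ, Y ≤ N ∧ P s N) : ∃ s : S, ∀ Y : ℕ, ∃ N : ℕ, Y ≤ N ∧ P s N := by
  classical
  have := Fintype.ofFinite S
  by_contra hcon
  push Not at hcon
  choose Y hY using hcon
  obtain ⟨s, N, hN, hP⟩ := h (∑ s, Y s)
  exact hY s N (le_trans (Finset.single_le_sum (f := Y) (fun _ _ => Nat.zero_le _) (mem_univ s)) hN) hP

private theorem FiP_root (Y : ℕ) : ((Y ^ 5 : ℕ) : ℝ) ^ ((1 : ℝ) / 5) = Y := by
  have h : (Y : ℝ) ^ (5 : ℕ) = (Y : ℝ) ^ ((5 : ℕ) : ℝ) := (Real.rpow_natCast _ _).symm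
  rw [Nat.cast_pow, h, ← Real.rpow_mul (Nat.cast_nonneg Y)]
  norm_num

/-- the multipliers without the first components of the pairs -/
private def FiP_M (k r n M : ℕ) (f : Fin r → Fin k → ℕ) (l : Fin (k ^ r * n)) : ℕ :=
  M * ∏ s, f s (finFunctionFinEquiv.symm (finProdFinEquiv.symm l).1 s)

private theorem FiP_M_idx (k r n M : ℕ) (f : Fin r → Fin k → ℕ) (v : Fin r → Fin k) (t : Fin n) :
    FiP_M k r n M f (finProdFinEquiv (finFunctionFinEquiv v, t)) = M * ∏ s, f s (v s) := by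
  unfold FiP_M
  rw [Equiv.symm_apply_apply, Equiv.symm_apply_apply]

theorem tFiP (h1 : MP_9f2731_nt.GP.DhjStmt) (h2 : ObStmt) (h3 : HsPStmt) (h4 : LnCStmt) : FiPStmt := by
  classical
  intro k hk
  obtain ⟨r, hr⟩ := h1 k (1 / 10 ^ 6) (by norm_num)
  refine ⟨r, ?_⟩
  intro f M S hf hM hS1 hInf hcop
  have hm : 1 ≤ k ^ r := Nat.one_le_pow _ _ hk
  obtain ⟨n, hn1, hn⟩ := h2 (k ^ r) hm
  have hM1 : ∀ l, 1 ≤ FiP_M k r n M f l := fun l =>
    Nat.mul_pos hM (Finset.prod_pos fun s _ => hf s _)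
  obtain ⟨σ, hσ, hdvd, hne⟩ := h3 (k ^ r * n) (∑ l, FiP_M k r n M f l) S hS1 hInf
  have hMB : ∀ l, FiP_M k r n M f l ≤ ∑ l, FiP_M k r n M f l := fun l =>
    Finset.single_le_sum (f := FiP_M k r n M f) (fun _ _ => Nat.zero_le _) (mem_univ l)
  have hcop' : ∀ i j, IsCoprime (((σ i).1 * FiP_M k r n M f i : ℕ) : ℤ) (σ j).2 := by
    intro i j
    unfold FiP_M
    rw [Nat.cast_mul, Nat.cast_mul, Nat.cast_prod]
    exact IsCoprime.mul_left ((hcop _ (hσ j)).2.2 _ (hσ i)) (IsCoprime.mul_left (hcop _ (hσ j)).1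
      (IsCoprime.prod_left fun s _ => (hcop _ (hσ j)).2.1 s _))
  obtain ⟨X0, hX0⟩ := hn (fun l => (σ l).1 * FiP_M k r n M f l) (fun l => (σ l).2)
    (fun l => Nat.mul_pos (hS1 _ (hσ l)) (hM1 l)) hcop' hdvd
    (fun i j hij => hne i j hij _ _ (hM1 i) (hMB i) (hM1 j) (hMB j))
  -- the property of a word with wildcards and bins
  obtain ⟨⟨w, τ⟩, hwτ⟩ := FiP_pigeon
    (S := (Fin r → Option (Fin k)) × (Fin k → Fin n))
    (fun s N => (∃ t, s.1 t = none) ∧ ∀ j, ∃ p : ℕ, p.Prime ∧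
      (p : ℤ) = (((σ (finProdFinEquiv (finFunctionFinEquiv (lineMap s.1 j), s.2 j))).1 *
        FiP_M k r n M f (finProdFinEquiv (finFunctionFinEquiv (lineMap s.1 j), s.2 j)) : ℕ) : ℤ)
        * N + (σ (finProdFinEquiv (finFunctionFinEquiv (lineMap s.1 j), s.2 j))).2) (by
    intro Y
    obtain ⟨N, hN, hcard⟩ := hX0 (max ⌈X0⌉₊ (Y ^ 5))
      (le_trans (Nat.le_ceil X0) (by exact_mod_cast le_max_left _ _))
    have hYN : Y ≤ N := by
      have h5 : (Y : ℝ) ≤ N := by
        rw [← FiP_root Y]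
        refine le_trans (Real.rpow_le_rpow (Nat.cast_nonneg _) ?_ (by norm_num)) hN
        exact_mod_cast le_max_right _ _
      exact_mod_cast h5
    obtain ⟨w, hw, hA⟩ := hr ((univ.filter (fun i : Fin (k ^ r) => ∃ t : Fin n, ∃ p : ℕ, p.Prime ∧
      (p : ℤ) = (((σ (finProdFinEquiv (i, t))).1 * FiP_M k r n M f (finProdFinEquiv (i, t)) : ℕ) : ℤ)
        * N + (σ (finProdFinEquiv (i, t))).2)).map
        finFunctionFinEquiv.symm.toEmbedding) (by
      rw [Finset.card_map]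
      have e : (1 : ℝ) / 10 ^ 6 * (k : ℝ) ^ r = ((k ^ r : ℕ) : ℝ) / 10 ^ 6 := by
        push_cast
        ring
      rw [e]
      refine hcard.trans (le_of_eq ?_)
      congr)
    have hA' : ∀ j : Fin k, ∃ t : Fin n, ∃ p : ℕ, p.Prime ∧
        (p : ℤ) = (((σ (finProdFinEquiv (finFunctionFinEquiv (lineMap w j), t))).1 *
          FiP_M k r n M f (finProdFinEquiv (finFunctionFinEquiv (lineMap w j), t)) : ℕ) : ℤ)
          * N + (σ (finProdFinEquiv (finFunctionFinEquiv (lineMap w j), t))).2 := by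
      intro j
      have h6 := hA j
      rw [Finset.mem_map] at h6
      obtain ⟨i, hi, hij⟩ := h6
      have h7 : finFunctionFinEquiv (lineMap w j) = i := by
        rw [← hij]
        exact Equiv.apply_symm_apply _ _
      rw [h7]
      exact (Finset.mem_filter.1 hi).2
    choose τ hτ using hA'
    exact ⟨(w, τ), N, hYN, hw, hτ⟩)
  have hw : ∃ t, w t = none := by
    obtain ⟨N, -, hw, -⟩ := hwτ 0
    exact hw
  obtain ⟨T, F, hT, hF, hprod, hinj⟩ := h4 k r f w hk hf hw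
  refine ⟨T, fun j => σ (finProdFinEquiv (finFunctionFinEquiv (lineMap w j), τ j)), hT,
    fun j => hσ _, ?_, ?_⟩
  · intro j j' hjj
    have hidx : finProdFinEquiv (finFunctionFinEquiv (lineMap w j), τ j) ≠
        finProdFinEquiv (finFunctionFinEquiv (lineMap w j'), τ j') := by
      intro hi
      have h8 := finProdFinEquiv.injective hi
      have h9 : finFunctionFinEquiv (lineMap w j) = finFunctionFinEquiv (lineMap w j') :=
        congrArg Prod.fst h8
      exact hjj (hinj (finFunctionFinEquiv.injective h9))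
    have hB : 1 ≤ ∑ l, FiP_M k r n M f l :=
      le_trans (hM1 (finProdFinEquiv (finFunctionFinEquiv (lineMap w j), τ j))) (hMB _)
    have h10 := hne _ _ hidx 1 1 le_rfl hB le_rfl hB
    rw [mul_one, mul_one] at h10
    exact h10
  · intro N
    obtain ⟨N0, hN0, -, hp⟩ := hwτ N
    refine ⟨M * F * N0, ?_, ?_, ?_⟩
    · have h10 : 1 ≤ M * F := Nat.mul_pos hM hF
      calc N ≤ N0 := hN0
        _ = 1 * N0 := (one_mul _).symm
        _ ≤ M * F * N0 := Nat.mul_le_mul_right _ h10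
    · exact Dvd.intro _ (by rw [mul_assoc])
    · intro j
      obtain ⟨p, hpp, hpe⟩ := hp j
      refine ⟨p, hpp, ?_⟩
      have hpe' : (p : ℤ) = (((σ (finProdFinEquiv (finFunctionFinEquiv (lineMap w j), τ j))).1 *
        FiP_M k r n M f (finProdFinEquiv (finFunctionFinEquiv (lineMap w j), τ j)) : ℕ) : ℤ) * N0 +
          (σ (finProdFinEquiv (finFunctionFinEquiv (lineMap w j), τ j))).2 := hpe
      rw [hpe', FiP_M_idx, hprod j]
      push_cast
      ring

end Pool.Agent.Lib.BE
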