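import Pool.Agent.Lib.BE.SpecG

/-!
# PROJECT BE, module HsP: the choice of the pairs
-/

set_option autoImplicit false

namespace Pool.Agent.Lib.BE

open Finset
open Pool.Agent.Lib.MP_9f2731_nt.GP Pool.Agent.Lib.MP_9f2731_nt.CG
  Pool.Agent.Lib.MP_9f2731_nt.CG.Mf

/-- the quotient of a pair -/
private def HsP_q (s : ℕ × ℤ) : ℚ := (s.2 : ℚ) / s.1

/-- infinitely many quotients come from one residue class of the second component -/
private lemma HsP_class (q : ℕ) (hq : 0 < q) (S : Set (ℕ × ℤ)) (hS : (HsP_q '' S).Infinite) :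
    ∃ c : ℤ, (HsP_q '' (S ∩ {s | s.2 % (q : ℤ) = c})).Infinite := by
  by_contra hcon
  push Not at hcon
  have hfin : ∀ c : ℤ, (HsP_q '' (S ∩ {s | s.2 % (q : ℤ) = c})).Finite := fun c => hcon c
  apply hS
  have hU : (⋃ c ∈ (Set.Icc (0 : ℤ) q), HsP_q '' (S ∩ {s | s.2 % (q : ℤ) = c})).Finite :=
    Set.Finite.biUnion (Set.finite_Icc _ _) (fun c _ => hfin c)
  refine hU.subset ?_
  rintro _ ⟨x, hx, rfl⟩
  have hq0 : (0 : ℤ) < q := by exact_mod_cast hq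
  simp only [Set.mem_iUnion]
  exact ⟨x.2 % (q : ℤ), ⟨Int.emod_nonneg _ hq0.ne', (Int.emod_lt_of_pos _ hq0).le⟩,
    x, ⟨hx, rfl⟩, rfl⟩

/-- the relation between two pairs -/
private def HsP_r (B : ℕ) (s t : ℕ × ℤ) : Prop :=
  ∀ x y : ℕ, 1 ≤ x → x ≤ B → 1 ≤ y → y ≤ B → (x : ℚ) * HsP_q t ≠ y * HsP_q s

private lemma HsP_det (B : ℕ) (s t : ℕ × ℤ) (hs : 1 ≤ s.1) (ht : 1 ≤ t.1) (h : HsP_r B s t)
    (x y : ℕ) (hx : 1 ≤ x) (hxB : x ≤ B) (hy : 1 ≤ y) (hyB : y ≤ B) :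
    ((s.1 * x : ℕ) : ℤ) * t.2 ≠ ((t.1 * y : ℕ) : ℤ) * s.2 := by
  intro he
  apply h x y hx hxB hy hyB
  have hs0 : (s.1 : ℚ) ≠ 0 := by
    have : (1 : ℚ) ≤ s.1 := by exact_mod_cast hs
    linarith
  have ht0 : (t.1 : ℚ) ≠ 0 := by
    have : (1 : ℚ) ≤ t.1 := by exact_mod_cast ht
    linarith
  have he2 : (s.1 : ℚ) * x * t.2 = t.1 * y * s.2 := by exact_mod_cast he
  unfold HsP_q
  rw [mul_div_assoc', mul_div_assoc', div_eq_div_iff ht0 hs0]
  linear_combination he2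

theorem tHsP : HsPStmt := by
  classical
  intro N B S hS1 hS
  obtain ⟨c, hc⟩ := HsP_class N.factorial (Nat.factorial_pos N) S hS
  obtain ⟨g, hg1, hg2⟩ := exists_seq_of_forall_finset_exists
    (fun s => s ∈ S ∩ {s : ℕ × ℤ | s.2 % (N.factorial : ℤ) = c}) (HsP_r B) (by
      intro F _
      obtain ⟨q, ⟨y, hy, rfl⟩, hq⟩ := hc.exists_notMem_finset
        (((F ×ˢ Finset.Icc 1 B) ×ˢ Finset.Icc 1 B).image
          (fun t => (t.2 : ℚ) / (t.1.2 : ℚ) * HsP_q t.1.1))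
      refine ⟨y, hy, fun s hs a b ha haB hb hbB he => hq ?_⟩
      rw [Finset.mem_image]
      refine ⟨((s, a), b), ?_, ?_⟩
      · simp only [Finset.mem_product, Finset.mem_Icc]
        exact ⟨⟨hs, ha, haB⟩, hb, hbB⟩
      · have ha0 : (a : ℚ) ≠ 0 := by
          have : (1 : ℚ) ≤ a := by exact_mod_cast ha
          linarith
        show (b : ℚ) / (a : ℚ) * HsP_q s = HsP_q y
        rw [div_mul_eq_mul_div, div_eq_iff ha0, ← he, mul_comm])
  refine ⟨fun i => g i, fun i => (hg1 i).1, ?_, ?_⟩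
  · intro i j
    have h1 : (g i).2 % (N.factorial : ℤ) = c := (hg1 i).2
    have h2 : (g j).2 % (N.factorial : ℤ) = c := (hg1 j).2
    exact Int.ModEq.dvd (show (g j).2 ≡ (g i).2 [ZMOD (N.factorial : ℤ)] from h2.trans h1.symm)
  · intro i j hij x y hx hxB hy hyB
    have hi := hS1 _ (hg1 i).1
    have hj := hS1 _ (hg1 j).1
    rcases lt_or_gt_of_ne (fun h : (i : ℕ) = j => hij (Fin.ext h)) with h | h
    · exact HsP_det B _ _ hi hj (hg2 i j h) x y hx hxB hy hyB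
    · exact (HsP_det B _ _ hj hi (hg2 j i h) y x hy hyB hx hxB).symm

end Pool.Agent.Lib.BE
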