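import Pool.Agent.Lib.BE.SpecG

/-!
PROJECT BE, module LnG: the line theorem, from the density Hales-Jewett theorem and occupied bins.
-/

set_option autoImplicit false

namespace Pool.Agent.Lib.BE

open Finset
open Pool.Agent.Lib.MP_9f2731_nt.GP Pool.Agent.Lib.MP_9f2731_nt.CG
open Pool.Agent.Lib.MP_9f2731_nt.CG.Mf

/-- pigeonhole: one element of a finite type works for arbitrarily large numbers -/
private theorem LnG_pigeon {S : Type} [Finite S] (P : S → ℕ → Prop)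
    (h : ∀ Y : ℕ, ∃ s : S, ∃ N : ℕ, Y ≤ N ∧ P s N) : ∃ s : S, ∀ Y : ℕ, ∃ N : ℕ, Y ≤ N ∧ P s N := by
  classical
  have := Fintype.ofFinite S
  by_contra hcon
  push Not at hcon
  choose Y hY using hcon
  obtain ⟨s, N, hN, hP⟩ := h (∑ s, Y s)
  exact hY s N (le_trans (Finset.single_le_sum (f := Y) (fun _ _ => Nat.zero_le _) (mem_univ s)) hN) hP

private theorem LnG_root (Y : ℕ) : ((Y ^ 5 : ℕ) : ℝ) ^ ((1 : ℝ) / 5) = Y := by
  have h : (Y : ℝ) ^ (5 : ℕ) = (Y : ℝ) ^ ((5 : ℕ) : ℝ) := (Real.rpow_natCast _ _).symm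
  rw [Nat.cast_pow, h, ← Real.rpow_mul (Nat.cast_nonneg Y)]
  norm_num

/-- the coefficients at an index -/
private def LnG_M {A : Type} (k r n : ℕ) (a : (Fin r → Fin k) → Fin n → A)
    (l : Fin (k ^ r * n)) : A :=
  a (finFunctionFinEquiv.symm (finProdFinEquiv.symm l).1) (finProdFinEquiv.symm l).2

private theorem LnG_M_idx {A : Type} (k r n : ℕ) (a : (Fin r → Fin k) → Fin n → A)
    (w : Fin r → Fin k) (s : Fin n) :
    LnG_M k r n a (finProdFinEquiv (finFunctionFinEquiv w, s)) = a w s := by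
  unfold LnG_M
  rw [Equiv.symm_apply_apply, Equiv.symm_apply_apply]

private theorem LnG_inj {k r n : ℕ} {i j : Fin (k ^ r * n)} (h : i ≠ j) :
    ((finFunctionFinEquiv.symm (finProdFinEquiv.symm i).1 : Fin r → Fin k),
      (finProdFinEquiv.symm i).2) ≠
    ((finFunctionFinEquiv.symm (finProdFinEquiv.symm j).1 : Fin r → Fin k),
      (finProdFinEquiv.symm j).2) := by
  intro he
  rw [Prod.mk.injEq] at he
  exact h (finProdFinEquiv.symm.injective
    (Prod.ext (finFunctionFinEquiv.symm.injective he.1) he.2))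

theorem tLnG (h1 : DhjStmt) (h2 : ObGStmt) : LnGStmt := by
  classical
  intro k hk
  obtain ⟨r, hr⟩ := h1 k (1 / 10 ^ 6) (by norm_num)
  have hm : 1 ≤ k ^ r := Nat.one_le_pow _ _ hk
  obtain ⟨n, hn1, hn⟩ := h2 (k ^ r) hm
  refine ⟨r, n, hn1, ?_⟩
  intro a b cl P ha hcl hne
  obtain ⟨X0, hX0⟩ := hn (LnG_M k r n a) (LnG_M k r n b) cl P (fun l => ha _ _)
    (fun p hp l => hcl p hp _ _) (fun i j hij => hne _ _ _ _ (LnG_inj hij))
  -- the property of a word with wildcards and shifts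
  obtain ⟨⟨w, τ⟩, hwτ⟩ := LnG_pigeon
    (S := (Fin r → Option (Fin k)) × (Fin k → Fin n))
    (fun s N => (∃ t, s.1 t = none) ∧ (∀ p : ℕ, p.Prime → p ≤ P → N ≡ cl p [MOD p]) ∧
      ∀ j, ∃ p : ℕ, p.Prime ∧
        (p : ℤ) = (a (lineMap s.1 j) (s.2 j) : ℤ) * N + b (lineMap s.1 j) (s.2 j)) (by
    intro Y
    obtain ⟨N, hN, hmod, hcard⟩ := hX0 (max ⌈X0⌉₊ (Y ^ 5))
      (le_trans (Nat.le_ceil X0) (by exact_mod_cast le_max_left _ _))
    have hYN : Y ≤ N := by
      have h5 : (Y : ℝ) ≤ N := by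
        rw [← LnG_root Y]
        refine le_trans (Real.rpow_le_rpow (Nat.cast_nonneg _) ?_ (by norm_num)) hN
        exact_mod_cast le_max_right _ _
      exact_mod_cast h5
    obtain ⟨w, hw, hA⟩ := hr ((univ.filter (fun i : Fin (k ^ r) => ∃ t : Fin n, ∃ p : ℕ, p.Prime ∧
      (p : ℤ) = ((LnG_M k r n a (finProdFinEquiv (i, t)) : ℕ) : ℤ) * N +
        LnG_M k r n b (finProdFinEquiv (i, t)))).map
        finFunctionFinEquiv.symm.toEmbedding) (by
      rw [Finset.card_map]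
      have e : (1 : ℝ) / 10 ^ 6 * (k : ℝ) ^ r = ((k ^ r : ℕ) : ℝ) / 10 ^ 6 := by
        push_cast
        ring
      rw [e]
      convert hcard)
    have hA' : ∀ j : Fin k, ∃ t : Fin n, ∃ p : ℕ, p.Prime ∧
        (p : ℤ) = (a (lineMap w j) t : ℤ) * N + b (lineMap w j) t := by
      intro j
      have h6 := hA j
      rw [Finset.mem_map] at h6
      obtain ⟨i, hi, hij⟩ := h6
      have h7 : finFunctionFinEquiv (lineMap w j) = i := by
        rw [← hij]
        exact Equiv.apply_symm_apply _ _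
      obtain ⟨t, p, hp, hpe⟩ := (Finset.mem_filter.1 hi).2
      refine ⟨t, p, hp, ?_⟩
      rw [← h7, LnG_M_idx, LnG_M_idx] at hpe
      exact hpe
    choose τ hτ using hA'
    exact ⟨(w, τ), N, hYN, hw, hmod, hτ⟩)
  refine ⟨w, τ, ?_, fun N0 => ?_⟩
  · obtain ⟨N, -, hw, -⟩ := hwτ 0
    exact hw
  · obtain ⟨N, hN, -, hmod, hp⟩ := hwτ N0
    exact ⟨N, hN, hmod, hp⟩

end Pool.Agent.Lib.BE
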