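import Pool.Agent.Lib.BE.SpecG

set_option autoImplicit false

namespace Pool.Agent.Lib.BE

open Finset
open Pool.Agent.Lib.MP_9f2731_nt.GP
open Pool.Agent.Lib.MP_9f2731_nt.CG
open Pool.Agent.Lib.MP_9f2731_nt.CG.Mf

/-- Module ObG: occupied bins for arbitrary admissible forms M' l n + h l, with n in prescribed classes
modulo the primes up to P (helper55, a port of ObC) -/
theorem tObG (h1 : BinStmt) (h2 : BvqCStmt) (h3 : VwCStmt) (h4 : StGStmt) : ObGmStmt := by
  classical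
  intro m hm
  obtain ⟨n, hn, X3, hbin⟩ := h1 m hm
  refine ⟨n, hn, ?_⟩
  intro M' h cl P hM hcop hne
  obtain ⟨ε1, hε, hbv⟩ := h2
  obtain ⟨w1, X1, hst⟩ := h4 (m * n) M' h cl ε1 hε hM hcop hne
  obtain ⟨X2, hbv2⟩ := hbv (max w1 P)
  obtain ⟨X4, hvw⟩ := h3 P ε1 hε
  refine ⟨max (max X1 X4) (max X2 X3), ?_⟩
  intro X hX
  have hX1 : X1 ≤ X := le_trans (le_trans (le_max_left _ _) (le_max_left _ _)) hX
  have hX4 : X4 ≤ X := le_trans (le_trans (le_max_right _ _) (le_max_left _ _)) hX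
  have hX2 : X2 ≤ X := le_trans (le_trans (le_max_left _ _) (le_max_right _ _)) hX
  have hX3 : X3 ≤ X := le_trans (le_trans (le_max_right _ _) (le_max_right _ _)) hX
  obtain ⟨p0, hp0, hw1P, hB⟩ := hbv2 X hX2
  have hw1 : w1 < p0 := lt_of_le_of_lt (le_max_left _ _) hw1P
  have hP : P < p0 := lt_of_le_of_lt (le_max_right _ _) hw1P
  obtain ⟨-, -, -, -, hPw, hdv, -⟩ := hvw X p0 hX4 hp0
  obtain ⟨ν, c, hc, hStC, hl, hcl⟩ := hst X p0 hX1 hp0 hw1
  have hBv : ∀ l, BvC X p0 (Vx X p0 * M' l) (c l) := by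
    intro l
    obtain ⟨a1, a2, a3, a4, a5⟩ := hl l
    exact hB (Vx X p0 * M' l) (c l) (hStC.ha1 l) a1 a2 a3 a4 a5
  obtain ⟨b, hb, hcard⟩ := hbin X (wx X) (Vx X p0) p0 (fun l => Vx X p0 * M' l) c hX3 hStC hBv
  have hkey : ∀ l, b ∈ BpC X (Vx X p0 * M' l) (c l) →
      RR X < b ∧ (Vx X p0 * M' l * b + c l).Prime := by
    intro l hbl
    exact (Finset.mem_filter.mp hbl).2
  have hV := hStC.hV
  refine ⟨Vx X p0 * b + ν, ?_, ?_, ?_⟩
  · -- some form occurs
    have hpos : (0 : ℝ) < ((univ.filter (fun i : Fin m => ∃ t : Fin n,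
        b ∈ BpC X ((fun l => Vx X p0 * M' l) (finProdFinEquiv (i, t)))
          (c (finProdFinEquiv (i, t))))).card : ℝ) := by
      refine lt_of_lt_of_le ?_ hcard
      have : (1 : ℝ) ≤ m := by exact_mod_cast hm
      positivity
    have hpos' : 0 < (univ.filter (fun i : Fin m => ∃ t : Fin n,
        b ∈ BpC X ((fun l => Vx X p0 * M' l) (finProdFinEquiv (i, t)))
          (c (finProdFinEquiv (i, t))))).card := by exact_mod_cast hpos
    obtain ⟨i, hi⟩ := Finset.card_pos.mp hpos'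
    obtain ⟨t, ht⟩ := (Finset.mem_filter.mp hi).2
    have hR := (hkey _ ht).1
    have h5 : (X : ℝ) ^ ((1 : ℝ) / 5) < (b : ℝ) := hR
    refine le_trans h5.le ?_
    have : b ≤ Vx X p0 * b + ν := by
      calc b = 1 * b := (one_mul b).symm
        _ ≤ Vx X p0 * b := Nat.mul_le_mul_right b hV
        _ ≤ Vx X p0 * b + ν := Nat.le_add_right _ _
    exact_mod_cast this
  · intro p hp hpP
    have hne0 : p ≠ p0 := by omega
    have hpw : p ≤ wx X := le_trans hpP hPw
    have hpV : p ∣ Vx X p0 := by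
      rcases (Nat.Prime.dvd_mul hp).1 (hdv p hp hpw) with h5 | h5
      · exact h5
      · exact absurd ((Nat.prime_dvd_prime_iff_eq hp hp0).1 h5) hne0
    have h6 : Vx X p0 * b ≡ 0 [MOD p] := (Nat.modEq_zero_iff_dvd).2 (Dvd.dvd.mul_right hpV b)
    have h7 : Vx X p0 * b + ν ≡ 0 + cl p [MOD p] := h6.add (hcl p hp hpw hne0)
    rwa [zero_add] at h7
  · refine le_trans hcard ?_
    have hsub : (univ.filter (fun i : Fin m => ∃ t : Fin n,
        b ∈ BpC X ((fun l => Vx X p0 * M' l) (finProdFinEquiv (i, t)))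
          (c (finProdFinEquiv (i, t))))) ⊆
        (univ.filter (fun i : Fin m => ∃ t : Fin n, ∃ p : ℕ, p.Prime ∧
          (p : ℤ) = (M' (finProdFinEquiv (i, t)) : ℤ) * ((Vx X p0 * b + ν : ℕ) : ℤ) +
            h (finProdFinEquiv (i, t)))) := by
      intro i hi
      rw [Finset.mem_filter] at hi ⊢
      refine ⟨hi.1, ?_⟩
      obtain ⟨t, ht⟩ := hi.2
      refine ⟨t, Vx X p0 * M' (finProdFinEquiv (i, t)) * b + c (finProdFinEquiv (i, t)),
        (hkey _ ht).2, ?_⟩
      have := hc (finProdFinEquiv (i, t))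
      push_cast
      rw [this]
      ring
    have hle := Finset.card_le_card hsub
    have hle' : ((univ.filter (fun i : Fin m => ∃ t : Fin n,
        b ∈ BpC X ((fun l => Vx X p0 * M' l) (finProdFinEquiv (i, t)))
          (c (finProdFinEquiv (i, t))))).card : ℝ) ≤
        ((univ.filter (fun i : Fin m => ∃ t : Fin n, ∃ p : ℕ, p.Prime ∧
          (p : ℤ) = (M' (finProdFinEquiv (i, t)) : ℤ) * ((Vx X p0 * b + ν : ℕ) : ℤ) +
            h (finProdFinEquiv (i, t)))).card : ℝ) := by exact_mod_cast hle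
    refine le_trans hle' ?_
    refine le_of_eq ?_
    congr

end Pool.Agent.Lib.BE
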